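import Mathlib

/-!
# Noetherian bases and bases of point-finite rank: definitions
-/

set_option autoImplicit false

open Set TopologicalSpace Topology

namespace Pool.Agent.H16.NB

universe u

/-- `Γ` has rank `≤ n` at `x`: every incomparable subfamily of `Γ` (no member is contained in
another member) all of whose members contain `x` has at most `n` members. -/
def RankLE {X : Type u} (Γ : Set (Set X)) (x : X) (n : ℕ) : Prop :=
  ∀ 𝒜 : Set (Set X), 𝒜 ⊆ Γ → IsAntichain (· ⊆ ·) 𝒜 → (∀ A ∈ 𝒜, x ∈ A) → 𝒜.encard ≤ n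

/-- `Γ` has point-finite rank. -/
def PointFiniteRank {X : Type u} (Γ : Set (Set X)) : Prop :=
  ∀ x : X, ∃ n : ℕ, RankLE Γ x n

/-- `Γ` has subinfinite rank: every incomparable subfamily of `Γ` whose members have a common
point is finite. -/
def SubinfiniteRank {X : Type u} (Γ : Set (Set X)) : Prop :=
  ∀ 𝒜 : Set (Set X), 𝒜 ⊆ Γ → IsAntichain (· ⊆ ·) 𝒜 → (∃ x, ∀ A ∈ 𝒜, x ∈ A) → 𝒜.Finite

/-- `Γ` is Noetherian: it contains no infinite strictly increasing sequence. -/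
def NoethFamily {X : Type u} (Γ : Set (Set X)) : Prop :=
  ¬ ∃ G : ℕ → Set X, (∀ i, G i ∈ Γ) ∧ ∀ i, G i ⊂ G (i + 1)

/-- `Y` is metacompact: every open cover has a point-finite open refinement. -/
def Metacompact (Y : Type u) [TopologicalSpace Y] : Prop :=
  ∀ 𝒰 : Set (Set Y), (∀ U ∈ 𝒰, IsOpen U) → ⋃₀ 𝒰 = univ →
    ∃ 𝒱 : Set (Set Y), (∀ V ∈ 𝒱, IsOpen V) ∧ ⋃₀ 𝒱 = univ ∧ (∀ V ∈ 𝒱, ∃ U ∈ 𝒰, V ⊆ U) ∧
      ∀ y : Y, {V ∈ 𝒱 | y ∈ V}.Finite

/-- Every subspace of `X` is metacompact. -/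
def HereditarilyMetacompact (X : Type u) [TopologicalSpace X] : Prop :=
  ∀ A : Set X, Metacompact A

end Pool.Agent.H16.NB
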