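import Pool.Agent.H16.NB.Defs

/-!
# Noetherian bases and bases of point-finite rank: library

The construction of a Noetherian base from a base of point-finite rank (`exists_noeth_base`, by helper56, from
the hand-in `MP_d968d9_gt.NoetherianBase`), hereditary metacompactness (`hereditarilyMetacompact_of_noeth`,
`no_descending_of_hm`), finite products (`product_base`, `prod_base`) and a product of two spaces with bases of
rank `1` which has no base of point-finite rank (`no_base`).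
-/

set_option autoImplicit false

open Set TopologicalSpace Topology

namespace Pool.Agent.H16.NB

universe u

section Core

variable {X : Type u}

/-- The closure of a family under approximation from inside on finite sets. -/
def cc (Γ : Set (Set X)) : Set (Set X) :=
  {G | ∀ F : Set X, F.Finite → F ⊆ G → ∃ H ∈ Γ, F ⊆ H ∧ H ⊆ G}

theorem subset_cc (Γ : Set (Set X)) : Γ ⊆ cc Γ :=
  fun G hG _ _ hFG => ⟨G, hG, hFG, subset_rfl⟩

theorem cc_sUnion {Γ C : Set (Set X)} (hC : C ⊆ cc Γ) (hch : IsChain (· ⊆ ·) C)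
    (hne : C.Nonempty) : ⋃₀ C ∈ cc Γ := by
  intro F hF hFC
  obtain ⟨c, hc, hFc⟩ :=
    hch.directedOn.exists_mem_subset_of_finite_of_subset_sUnion hne hF hFC
  obtain ⟨H, hH, h1, h2⟩ := hC hc F hF hFc
  exact ⟨H, hH, h1, h2.trans (subset_sUnion_of_mem hc)⟩

theorem cc_isOpen [TopologicalSpace X] {Γ : Set (Set X)} (hΓ : ∀ G ∈ Γ, IsOpen G) {G : Set X}
    (hG : G ∈ cc Γ) : IsOpen G := by
  rw [isOpen_iff_forall_mem_open]
  intro x hx
  obtain ⟨H, hH, h1, h2⟩ := hG {x} (finite_singleton x) (by simpa using hx)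
  exact ⟨H, h2, hΓ H hH, h1 rfl⟩

theorem cc_rank {Γ : Set (Set X)} {x : X} {n : ℕ} (h : RankLE Γ x n) : RankLE (cc Γ) x n := by
  intro 𝒜 h𝒜 hanti hx
  by_contra hcon
  rw [not_le] at hcon
  have h1 : ((n + 1 : ℕ) : ℕ∞) ≤ 𝒜.encard := by
    have := Order.add_one_le_of_lt hcon
    exact_mod_cast this
  obtain ⟨ℬ, hℬ, hcard⟩ := exists_subset_encard_eq h1
  have hfin : ℬ.Finite := by
    apply finite_of_encard_eq_coe hcard
  have hantiB : IsAntichain (· ⊆ ·) ℬ := hanti.subset hℬ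
  have hp : ∀ A : ℬ, ∀ B : ℬ, A ≠ B → ∃ p, p ∈ (A : Set X) ∧ p ∉ (B : Set X) := by
    intro A B hAB
    have := hantiB A.2 B.2 (fun h => hAB (Subtype.ext h))
    exact not_subset.mp this
  have : Nonempty X := ⟨x⟩
  choose! p hp1 hp2 using hp
  have : Finite ℬ := hfin
  have hH : ∀ A : ℬ, ∃ H ∈ Γ, x ∈ H ∧ (∀ B : ℬ, A ≠ B → p A B ∈ H) ∧ H ⊆ A := by
    intro A
    have hF : (insert x ((fun B => p A B) '' {B : ℬ | A ≠ B})).Finite :=
      ((toFinite _).image _).insert _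
    obtain ⟨H, hH, h1, h2⟩ := h𝒜 (hℬ A.2) _ hF (by
      intro y hy
      rcases hy with rfl | ⟨B, hB, rfl⟩
      · exact hx _ (hℬ A.2)
      · exact hp1 A B hB)
    refine ⟨H, hH, h1 (mem_insert _ _), ?_, h2⟩
    intro B hB
    exact h1 (mem_insert_of_mem _ ⟨B, hB, rfl⟩)
  choose H hHΓ hHx hHp hHA using hH
  have hne : ∀ A B : ℬ, A ≠ B → ¬ H A ⊆ H B := by
    intro A B hAB hsub
    exact hp2 A B hAB (hHA B (hsub (hHp A B hAB)))
  have hinj : Function.Injective H := by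
    intro A B hAB
    by_contra hne'
    exact hne A B hne' hAB.le
  have hr := h (range H) (by rintro _ ⟨A, rfl⟩; exact hHΓ A) (by
    rintro _ ⟨A, rfl⟩ _ ⟨B, rfl⟩ hAB
    exact hne A B (fun h => hAB (by rw [h]))) (by rintro _ ⟨A, rfl⟩; exact hHx A)
  rw [← image_univ, hinj.encard_image, encard_univ] at hr
  have : (ENat.card ℬ) = ((n + 1 : ℕ) : ℕ∞) := by
    rw [← hcard]; rfl
  rw [this] at hr
  have : n + 1 ≤ n := by exact_mod_cast hr
  omega


/-! ### The level function -/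

variable [TopologicalSpace X]

/-- Ordered pairs of points of `G` whose second point is not in every neighbourhood of the
first one. -/
def pairs (G : Set X) : Set (X × X) := {a | a.1 ∈ G ∧ a.2 ∈ G ∧ ¬ (a.2 ⤳ a.1)}

theorem pairs_mono {G G' : Set X} (h : G' ⊆ G) : pairs G' ⊆ pairs G :=
  fun _ ha => ⟨h ha.1, h ha.2.1, ha.2.2⟩

/-- `x` has a smallest open neighbourhood. -/
def HasSmallest (x : X) : Prop :=
  ∃ V : Set X, IsOpen V ∧ x ∈ V ∧ ∀ W : Set X, IsOpen W → x ∈ W → V ⊆ W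

theorem exists_pair {x : X} (hx : ¬ HasSmallest x) {G : Set X} (hG : IsOpen G) (hxG : x ∈ G) :
    ∃ q ∈ G, ¬ (q ⤳ x) := by
  by_contra hcon
  push Not at hcon
  apply hx
  refine ⟨G, hG, hxG, fun W hW hxW y hy => ?_⟩
  exact (specializes_iff_forall_open.mp (hcon y hy)) W hW hxW

theorem exists_open_of_not_spec {x q : X} (h : ¬ (q ⤳ x)) : ∃ W : Set X, IsOpen W ∧ x ∈ W ∧ q ∉ W := by
  rw [specializes_iff_forall_open] at h
  push Not at h
  exact h

theorem exists_level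
    (hW : WellFounded (fun x p : X => closure ({x} : Set X) ⊂ closure ({p} : Set X))) :
    ∃ ℓ : Set X → Ordinal.{u},
      (∀ G G' : Set X, G' ⊆ G → (pairs G').Nonempty → ℓ G ≤ ℓ G') ∧
      (∀ G : Set X, (pairs G).Nonempty → ∃ a ∈ pairs G, ∀ G' : Set X, a ∈ pairs G' → ℓ G' ≤ ℓ G) ∧
      (∀ x : X, ¬ HasSmallest x → ∀ B : Set X, IsOpen B → x ∈ B →
        ∃ W : Set X, IsOpen W ∧ x ∈ W ∧
          ∀ G : Set X, IsOpen G → x ∈ G → G ⊆ B → G ⊆ W → ℓ B < ℓ G) := by
  have : IsWellFounded X (fun x p : X => closure ({x} : Set X) ⊂ closure ({p} : Set X)) := ⟨hW⟩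
  obtain ⟨s, hs, hwo⟩ := IsWellFounded.exists_well_order_ge
    (fun x p : X => closure ({x} : Set X) ⊂ closure ({p} : Set X))
  let idx : X × X → Ordinal.{u} := fun a => Ordinal.typein (Prod.Lex s s) a
  have hinj : Function.Injective idx := Ordinal.typein_injective (Prod.Lex s s)
  refine ⟨fun G => sInf (idx '' pairs G), ?_, ?_, ?_⟩
  · intro G G' h hne
    exact csInf_le_csInf (OrderBot.bddBelow _) (hne.image _) (image_mono (pairs_mono h))
  · intro G hne
    obtain ⟨a, ha, hav⟩ := csInf_mem (hne.image idx)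
    refine ⟨a, ha, fun G' ha' => ?_⟩
    change sInf (idx '' pairs G') ≤ sInf (idx '' pairs G)
    rw [← hav]
    exact csInf_le' ⟨a, ha', rfl⟩
  · intro x hx B hB hxB
    obtain ⟨q', hq'B, hq'⟩ := exists_pair hx hB hxB
    have hne : (pairs B).Nonempty := ⟨(x, q'), hxB, hq'B, hq'⟩
    obtain ⟨⟨p, q⟩, ⟨hpB, hqB, hqp⟩, hav⟩ := csInf_mem (hne.image idx)
    have hle : idx (p, q) ≤ idx (x, q') := by
      rw [hav]; exact csInf_le' ⟨(x, q'), ⟨hxB, hq'B, hq'⟩, rfl⟩
    have hnot : ¬ s x p := by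
      intro hsx
      have : idx (x, q') < idx (p, q) := by
        rw [Ordinal.typein_lt_typein]
        exact Prod.Lex.left _ _ hsx
      exact absurd hle (not_le.mpr this)
    -- find the open set
    have key : ∃ W : Set X, IsOpen W ∧ x ∈ W ∧ (p ∉ W ∨ q ∉ W) := by
      by_cases hpx : p ⤳ x
      · by_cases hxp : x ⤳ p
        · have : ¬ (q ⤳ x) := fun h => hqp (h.trans hxp)
          obtain ⟨W, h1, h2, h3⟩ := exists_open_of_not_spec this
          exact ⟨W, h1, h2, Or.inr h3⟩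
        · exfalso
          apply hnot
          apply hs
          rw [specializes_iff_closure_subset] at hpx hxp
          exact ⟨hpx, hxp⟩
      · obtain ⟨W, h1, h2, h3⟩ := exists_open_of_not_spec hpx
        exact ⟨W, h1, h2, Or.inl h3⟩
    obtain ⟨W, hW1, hW2, hW3⟩ := key
    refine ⟨W, hW1, hW2, ?_⟩
    intro G hG hxG hGB hGW
    change sInf (idx '' pairs B) < sInf (idx '' pairs G)
    obtain ⟨q'', hq''G, hq''⟩ := exists_pair hx hG hxG
    have hneG : (pairs G).Nonempty := ⟨(x, q''), hxG, hq''G, hq''⟩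
    have h1 : sInf (idx '' pairs B) ≤ sInf (idx '' pairs G) :=
      csInf_le_csInf (OrderBot.bddBelow _) (hneG.image _) (image_mono (pairs_mono hGB))
    refine lt_of_le_of_ne h1 ?_
    intro heq
    obtain ⟨a, ha, hav'⟩ := csInf_mem (hneG.image idx)
    rw [← heq, ← hav] at hav'
    have := hinj hav'
    subst this
    rcases hW3 with h | h
    · exact h (hGW ha.1)
    · exact h (hGW ha.2.1)

end Core

/-! ### The rows attached to a point and a basic set containing it -/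

section Rows

variable {X : Type u} (𝒢 : Set (Set X)) (ℓ : Set X → Ordinal.{u})

/-- Members of `𝒢` that contain `x`, lie inside `A` and have level above `m`. -/
def Fam (x : X) (A : Set X) (m : Ordinal.{u}) (H : Set X) : Prop :=
  H ∈ 𝒢 ∧ x ∈ H ∧ H ⊆ A ∧ m < ℓ H

/-- Row `0` is `{g}`; row `i + 1` consists of the maximal members of `𝒢` containing `x`, lying
inside a member of row `i`, with level above all levels of row `i`. -/
noncomputable def row (x : X) (g : Set X) : ℕ → Set (Set X)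
  | 0 => {g}
  | i + 1 => {G | ∃ A ∈ row x g i, Maximal (Fam 𝒢 ℓ x A (sSup (ℓ '' row x g i))) G}

/-- The largest level in row `i`. -/
noncomputable def lev (x : X) (g : Set X) (i : ℕ) : Ordinal.{u} := sSup (ℓ '' row 𝒢 ℓ x g i)

/-- The hypotheses on a point needed for the construction. -/
structure Pt (x : X) (n : ℕ) : Prop where
  rank : RankLE 𝒢 x n
  mono : ∀ G G' : Set X, G ∈ 𝒢 → G' ∈ 𝒢 → x ∈ G' → G' ⊆ G → ℓ G ≤ ℓ G'
  ext : ∀ A ∈ 𝒢, x ∈ A → ∀ B ∈ 𝒢, x ∈ B → ∃ G ∈ 𝒢, x ∈ G ∧ G ⊆ A ∧ G ⊆ B ∧ ℓ B < ℓ G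
  chain : ∀ C : Set (Set X), C ⊆ 𝒢 → IsChain (· ⊆ ·) C → C.Nonempty → (∀ c ∈ C, x ∈ c) →
    ⋃₀ C ∈ 𝒢 ∧ ∃ c ∈ C, ℓ c ≤ ℓ (⋃₀ C)

variable {𝒢 ℓ}

theorem exists_max {x : X} {n : ℕ} (hP : Pt 𝒢 ℓ x n) {A : Set X} {m : Ordinal.{u}} {H : Set X}
    (hH : Fam 𝒢 ℓ x A m H) : ∃ M, H ⊆ M ∧ Maximal (Fam 𝒢 ℓ x A m) M := by
  refine zorn_subset_nonempty {H | Fam 𝒢 ℓ x A m H} ?_ H hH
  intro C hC hch hne
  obtain ⟨h1, c, hc, hlc⟩ := hP.chain C (fun c hc => (hC hc).1) hch hne (fun c hc => (hC hc).2.1)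
  refine ⟨⋃₀ C, ⟨h1, ?_, ?_, ?_⟩, fun s hs => subset_sUnion_of_mem hs⟩
  · exact ⟨c, hc, (hC hc).2.1⟩
  · exact sUnion_subset (fun c hc => (hC hc).2.2.1)
  · exact lt_of_lt_of_le (hC hc).2.2.2 hlc

theorem row_sub {x : X} {g : Set X} (hg : g ∈ 𝒢) (hxg : x ∈ g) (i : ℕ) :
    ∀ G ∈ row 𝒢 ℓ x g i, G ∈ 𝒢 ∧ x ∈ G ∧ G ⊆ g := by
  induction i with
  | zero =>
    intro G hG
    have : G = g := hG
    subst this
    exact ⟨hg, hxg, subset_rfl⟩
  | succ i ih =>
    rintro G ⟨A, hA, hG⟩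
    exact ⟨hG.prop.1, hG.prop.2.1, hG.prop.2.2.1.trans (ih A hA).2.2⟩

theorem row_finite {x : X} {n : ℕ} (hP : Pt 𝒢 ℓ x n) (g : Set X) (i : ℕ) :
    (row 𝒢 ℓ x g i).Finite := by
  induction i with
  | zero => exact finite_singleton g
  | succ i ih =>
    have : row 𝒢 ℓ x g (i + 1) =
        ⋃ A ∈ row 𝒢 ℓ x g i, {G | Maximal (Fam 𝒢 ℓ x A (sSup (ℓ '' row 𝒢 ℓ x g i))) G} := by
      ext G
      simp [row]
    rw [this]
    refine ih.biUnion (fun A _ => ?_)
    apply finite_of_encard_le_coe (k := n)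
    apply hP.rank
    · intro G hG; exact hG.prop.1
    · intro G hG H hH hne hsub
      exact hne (subset_antisymm hsub (hG.le_of_ge hH.prop hsub))
    · intro G hG; exact hG.prop.2.1

theorem le_lev {x : X} {n : ℕ} (hP : Pt 𝒢 ℓ x n) {g : Set X} {i : ℕ} {B : Set X}
    (hB : B ∈ row 𝒢 ℓ x g i) : ℓ B ≤ lev 𝒢 ℓ x g i :=
  le_csSup ((row_finite hP g i).image ℓ).bddAbove ⟨B, hB, rfl⟩

theorem lev_lt {x : X} {g : Set X} {i : ℕ} {B : Set X}
    (hB : B ∈ row 𝒢 ℓ x g (i + 1)) : lev 𝒢 ℓ x g i < ℓ B := by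
  obtain ⟨A, _, hA⟩ := hB
  exact hA.prop.2.2.2

theorem row_extend {x : X} {n : ℕ} (hP : Pt 𝒢 ℓ x n) {g : Set X} {i : ℕ} {A G : Set X}
    (hA : A ∈ row 𝒢 ℓ x g i) (hG : G ∈ 𝒢) (hxG : x ∈ G) (hGA : G ⊆ A)
    (hl : lev 𝒢 ℓ x g i < ℓ G) : ∃ A' ∈ row 𝒢 ℓ x g (i + 1), G ⊆ A' := by
  obtain ⟨M, hM1, hM2⟩ := exists_max hP (show Fam 𝒢 ℓ x A _ G from ⟨hG, hxG, hGA, hl⟩)
  exact ⟨M, ⟨A, hA, hM2⟩, hM1⟩

theorem row_nonempty {x : X} {n : ℕ} (hP : Pt 𝒢 ℓ x n) {g : Set X} (hg : g ∈ 𝒢) (hxg : x ∈ g)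
    (i : ℕ) : (row 𝒢 ℓ x g i).Nonempty := by
  induction i with
  | zero => exact ⟨g, rfl⟩
  | succ i ih =>
    obtain ⟨B, hB, hBl⟩ := (ih.image ℓ).csSup_mem ((row_finite hP g i).image ℓ)
    obtain ⟨hB1, hB2, -⟩ := row_sub hg hxg i B hB
    obtain ⟨G, hG1, hG2, hG3, -, hG5⟩ := hP.ext B hB1 hB2 B hB1 hB2
    obtain ⟨A', hA', -⟩ := row_extend hP hB hG1 hG2 hG3 (by
      change sSup _ < _
      rw [← hBl]; exact hG5)
    exact ⟨A', hA'⟩

theorem lev_le_succ {x : X} {n : ℕ} (hP : Pt 𝒢 ℓ x n) {g : Set X} (hg : g ∈ 𝒢) (hxg : x ∈ g)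
    (i : ℕ) : lev 𝒢 ℓ x g i ≤ lev 𝒢 ℓ x g (i + 1) := by
  obtain ⟨B, hB⟩ := row_nonempty hP hg hxg (i + 1)
  exact (lev_lt hB).le.trans (le_lev hP hB)

theorem lev_mono {x : X} {n : ℕ} (hP : Pt 𝒢 ℓ x n) {g : Set X} (hg : g ∈ 𝒢) (hxg : x ∈ g) :
    Monotone (lev 𝒢 ℓ x g) :=
  monotone_nat_of_le_succ (lev_le_succ hP hg hxg)

theorem exists_path {x : X} {g : Set X} (i : ℕ) :
    ∀ G ∈ row 𝒢 ℓ x g i, ∃ p : ℕ → Set X, p i = G ∧ (∀ k ≤ i, p k ∈ row 𝒢 ℓ x g k ∧ G ⊆ p k) ∧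
      ∀ k < i, p (k + 1) ⊆ p k := by
  induction i with
  | zero =>
    intro G hG
    refine ⟨fun _ => G, rfl, ?_, ?_⟩
    · intro k hk
      have : k = 0 := by omega
      subst this
      exact ⟨hG, subset_rfl⟩
    · intro k hk; omega
  | succ i ih =>
    intro G hG
    obtain ⟨A, hA, hmax⟩ := hG
    obtain ⟨p, hp1, hp2, hp3⟩ := ih A hA
    have hGA : G ⊆ A := hmax.prop.2.2.1
    refine ⟨Function.update p (i + 1) G, by simp, ?_, ?_⟩
    · intro k hk
      rcases Nat.lt_or_ge k (i + 1) with h | h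
      · rw [Function.update_of_ne (by omega)]
        exact ⟨(hp2 k (by omega)).1, hGA.trans (hp2 k (by omega)).2⟩
      · have : k = i + 1 := by omega
        subst this
        rw [Function.update_self]
        exact ⟨⟨A, hA, hmax⟩, subset_rfl⟩
    · intro k hk
      rcases Nat.lt_or_ge k i with h | h
      · rw [Function.update_of_ne (by omega), Function.update_of_ne (by omega)]
        exact hp3 k h
      · have : k = i := by omega
        subst this
        rw [Function.update_self, Function.update_of_ne (by omega), hp1]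
        exact hGA

/-- The key fact: the chosen sets contain no infinite increasing sequence. -/
theorem no_seq {n : ℕ} (x : ℕ → X) (g U : ℕ → Set X) (hP : ∀ j, Pt 𝒢 ℓ (x j) n)
    (hg : ∀ j, g j ∈ 𝒢) (hxg : ∀ j, x j ∈ g j)
    (hU : ∀ j, Maximal (· ∈ row 𝒢 ℓ (x j) (g j) n) (U j))
    (hlt : ∀ i j, i < j → U i ⊂ U j) : False := by
  -- pass to a subsequence along which the levels are monotone
  wlog hmon : ∀ a b, a ≤ b → ∀ i < n, lev 𝒢 ℓ (x a) (g a) i ≤ lev 𝒢 ℓ (x b) (g b) i with H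
  · have hw : WellQuasiOrdered fun a b : (Fin n → Ordinal.{u}) => ∀ i, a i ≤ b i :=
      WellQuasiOrdered.pi (fun _ => wellQuasiOrdered_le)
    have : IsPreorder (Fin n → Ordinal.{u}) (fun a b => ∀ i, a i ≤ b i) :=
      { refl a i := le_refl (a i)
        trans a b c hab hbc i := (hab i).trans (hbc i) }
    obtain ⟨φ, hφ⟩ := hw.exists_monotone_subseq
      (fun j (i : Fin n) => lev 𝒢 ℓ (x j) (g j) i)
    refine H (x ∘ φ) (g ∘ φ) (U ∘ φ) (fun j => hP _) (fun j => hg _) (fun j => hxg _)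
      (fun j => hU _) (fun i j hij => hlt _ _ (φ.strictMono hij)) ?_
    intro a b hab i hi
    exact hφ a b hab ⟨i, hi⟩
  choose p hpU hpr hps using fun j => exists_path n (U j) (hU j).prop
  have hxU : ∀ j, x j ∈ U j := fun j => (row_sub (hg j) (hxg j) n (U j) (hU j).prop).2.1
  have hUle : ∀ a b, a ≤ b → U a ⊆ U b := by
    intro a b hab
    rcases hab.eq_or_lt with h | h
    · rw [h]
    · exact (hlt a b h).subset
  -- first claim
  have C1 : ∀ a b, a < b → ∀ k i, i + k = n → ∀ A ∈ row 𝒢 ℓ (x a) (g a) i, ¬ p b i ⊆ A := by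
    intro a b hab k
    induction k with
    | zero =>
      intro i hi A hA hsub
      have : i = n := by omega
      subst this
      rw [hpU b] at hsub
      have h1 : U a ⊂ A := (hlt a b hab).trans_subset hsub
      exact h1.not_subset ((hU a).le_of_ge hA h1.subset)
    | succ k ih =>
      intro i hi A hA hsub
      have hstep : p b (i + 1) ⊆ p b i := hps b i (by omega)
      have hmem := (hpr b (i + 1) (by omega)).1
      have hG := (row_sub (hg b) (hxg b) (i + 1) _ hmem)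
      have hxa : x a ∈ p b (i + 1) :=
        (hpr b (i + 1) (by omega)).2 (hUle a b hab.le (hxU a))
      obtain ⟨A', hA', hsub'⟩ := row_extend (hP a) hA hG.1 hxa (hstep.trans hsub)
        (lt_of_le_of_lt (hmon a b hab.le i (by omega)) (lev_lt hmem))
      exact ih (i + 1) (by omega) A' hA' hsub'
  -- second claim
  have C2 : ∀ a b, a < b → ∀ i', i' ≤ n → ∀ k i, i + k = i' →
      ∀ A ∈ row 𝒢 ℓ (x a) (g a) i, ¬ p b i' ⊆ A := by
    intro a b hab i' hi' k
    induction k with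
    | zero =>
      intro i hi A hA
      have : i = i' := by omega
      subst this
      exact C1 a b hab (n - i) i (by omega) A hA
    | succ k ih =>
      intro i hi A hA hsub
      have hmem := (hpr b i' hi').1
      have hG := (row_sub (hg b) (hxg b) i' _ hmem)
      have hxa : x a ∈ p b i' := (hpr b i' hi').2 (hUle a b hab.le (hxU a))
      obtain ⟨i'', rfl⟩ : ∃ i'', i' = i'' + 1 := ⟨i' - 1, by omega⟩
      obtain ⟨A', hA', hsub'⟩ := row_extend (hP a) hA hG.1 hxa hsub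
        (lt_of_le_of_lt ((hmon a b hab.le i (by omega)).trans
          (lev_mono (hP b) (hg b) (hxg b) (by omega : i ≤ i''))) (lev_lt hmem))
      exact ih (i + 1) (by omega) A' hA' hsub'
  -- third claim
  have C3 : ∀ a b, a < b → ∀ i i', i < i' → i' ≤ n → ¬ p a i ⊆ p b i' := by
    intro a b hab i i' hii hi' hsub
    have hmem := (hpr b i' hi').1
    have hmema := (hpr a i (by omega)).1
    have hGa := row_sub (hg a) (hxg a) i _ hmema
    have hGb := row_sub (hg b) (hxg b) i' _ hmem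
    obtain ⟨i'', rfl⟩ : ∃ i'', i' = i'' + 1 := ⟨i' - 1, by omega⟩
    have h1 : ℓ (p b (i'' + 1)) ≤ ℓ (p a i) := (hP a).mono _ _ hGb.1 hGa.1 hGa.2.1 hsub
    have h2 : lev 𝒢 ℓ (x a) (g a) i ≤ lev 𝒢 ℓ (x b) (g b) i'' :=
      (hmon a b hab.le i (by omega)).trans (lev_mono (hP b) (hg b) (hxg b) (by omega))
    exact absurd (le_lev (hP a) hmema) (not_le.mpr ((h2.trans_lt (lev_lt hmem)).trans_le h1))
  -- the antichain
  have hne : ∀ i i' : Fin (n + 1), i < i' → ¬ p i i ⊆ p i' i' ∧ ¬ p i' i' ⊆ p i i := by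
    intro i i' h
    have h' : (i : ℕ) < i' := h
    exact ⟨C3 i i' h' i i' h' (by omega), C2 i i' h' i' (by omega) (i' - i) i (by omega) _
      (hpr i i (by omega)).1⟩
  have hne' : ∀ i i' : Fin (n + 1), i ≠ i' → ¬ p i i ⊆ p i' i' := by
    intro i i' h
    rcases lt_or_gt_of_ne h with h | h
    · exact (hne i i' h).1
    · exact (hne i' i h).2
  have hinj : Function.Injective (fun i : Fin (n + 1) => p i i) := by
    intro i i' h
    by_contra hc
    exact hne' i i' hc (le_of_eq h)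
  have hr := (hP 0).rank (range (fun i : Fin (n + 1) => p i i)) (by
      rintro _ ⟨i, rfl⟩
      exact (row_sub (hg i) (hxg i) i _ (hpr i i (by omega)).1).1) (by
      rintro _ ⟨i, rfl⟩ _ ⟨i', rfl⟩ h
      exact hne' i i' (fun h' => h (by rw [h']))) (by
      rintro _ ⟨i, rfl⟩
      exact (hpr i i (by omega)).2 (hUle 0 i (by omega) (hxU 0)))
  rw [← image_univ, hinj.encard_image, encard_univ] at hr
  simp only [ENat.card_eq_coe_fintype_card, Fintype.card_fin] at hr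
  have : n + 1 ≤ n := by exact_mod_cast hr
  omega

end Rows

/-! ### The main construction -/

section Main

theorem exists_rank {X : Type u} [TopologicalSpace X] {𝒢 : Set (Set X)}
    (h𝒢 : ∀ G ∈ 𝒢, IsOpen G) (hr : PointFiniteRank 𝒢) :
    ∃ rk : X → ℕ, (∀ x, RankLE 𝒢 x (rk x)) ∧
      ∀ x, ∃ O : Set X, IsOpen O ∧ x ∈ O ∧ ∀ y ∈ O, rk x ≤ rk y := by
  classical
  refine ⟨fun x => Nat.find (hr x), fun x => Nat.find_spec (hr x), fun x => ?_⟩
  rcases Nat.eq_zero_or_pos (Nat.find (hr x)) with h0 | hpos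
  · exact ⟨univ, isOpen_univ, mem_univ x, fun y _ => le_of_eq_of_le h0 (Nat.zero_le _)⟩
  · have hnot := Nat.find_min (hr x) (Nat.sub_lt hpos one_pos)
    unfold RankLE at hnot
    push Not at hnot
    obtain ⟨𝒜, h1, h2, h3, h4⟩ := hnot
    have hfin : 𝒜.Finite := finite_of_encard_le_coe (Nat.find_spec (hr x) 𝒜 h1 h2 h3)
    refine ⟨⋂₀ 𝒜, hfin.isOpen_sInter (fun A hA => h𝒢 A (h1 hA)), fun A hA => h3 A hA, ?_⟩
    intro y hy
    have h5 := Nat.find_spec (hr y) 𝒜 h1 h2 (fun A hA => hy A hA)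
    have h6 := lt_of_lt_of_le h4 h5
    have h7 : Nat.find (hr x) - 1 < Nat.find (hr y) := by exact_mod_cast h6
    change Nat.find (hr x) ≤ Nat.find (hr y)
    omega

theorem exists_noeth_base {X : Type u} [TopologicalSpace X] {Γ : Set (Set X)}
    (hΓ : IsTopologicalBasis Γ) (hr : PointFiniteRank Γ)
    (hW : ¬ ∃ z : ℕ → X, ∀ i, closure ({z (i + 1)} : Set X) ⊂ closure {z i}) :
    ∃ 𝒩 : Set (Set X), 𝒩 ⊆ cc Γ ∧ IsTopologicalBasis 𝒩 ∧ NoethFamily 𝒩 := by
  have hW' : WellFounded (fun x p : X => closure ({x} : Set X) ⊂ closure ({p} : Set X)) := by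
    rw [wellFounded_iff_isEmpty_descending_chain]
    exact ⟨fun ⟨f, hf⟩ => hW ⟨f, hf⟩⟩
  obtain ⟨ℓ, hl1, hl2, hl3⟩ := exists_level hW'
  have hopen : ∀ G ∈ cc Γ, IsOpen G := fun G hG => cc_isOpen (fun _ h => hΓ.isOpen h) hG
  obtain ⟨rk, hrk, hO⟩ := exists_rank hopen (fun x => (hr x).imp fun n h => cc_rank h)
  choose O hOo hxO hOle using hO
  have hPt : ∀ x : X, ¬ HasSmallest x → Pt (cc Γ) ℓ x (rk x) := by
    intro x hx
    refine ⟨hrk x, ?_, ?_, ?_⟩
    · intro G G' hG hG' hxG' hsub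
      obtain ⟨q, hq, hqx⟩ := exists_pair hx (hopen G' hG') hxG'
      exact hl1 G G' hsub ⟨(x, q), hxG', hq, hqx⟩
    · intro A hA hxA B hB hxB
      obtain ⟨W, hW1, hW2, hW3⟩ := hl3 x hx B (hopen B hB) hxB
      obtain ⟨G, hG, hxG, hsub⟩ := hΓ.exists_subset_of_mem_open
        (show x ∈ A ∩ B ∩ W from ⟨⟨hxA, hxB⟩, hW2⟩)
        (((hopen A hA).inter (hopen B hB)).inter hW1)
      exact ⟨G, subset_cc Γ hG, hxG, fun y hy => (hsub hy).1.1, fun y hy => (hsub hy).1.2,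
        hW3 G (hΓ.isOpen hG) hxG (fun y hy => (hsub hy).1.2) (fun y hy => (hsub hy).2)⟩
    · intro C hC hch hne hxC
      have hmem := cc_sUnion hC hch hne
      refine ⟨hmem, ?_⟩
      obtain ⟨c, hc⟩ := hne
      obtain ⟨q, hq, hqx⟩ := exists_pair hx (hopen _ hmem) ⟨c, hc, hxC c hc⟩
      obtain ⟨a, ha, hale⟩ := hl2 (⋃₀ C) ⟨(x, q), ⟨c, hc, hxC c hc⟩, hq, hqx⟩
      obtain ⟨c1, hc1, ha1⟩ := ha.1
      obtain ⟨c2, hc2, ha2⟩ := ha.2.1
      rcases hch.total hc1 hc2 with h | h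
      · exact ⟨c2, hc2, hale c2 ⟨h ha1, ha2, ha.2.2⟩⟩
      · exact ⟨c1, hc1, hale c1 ⟨ha1, h ha2, ha.2.2⟩⟩
  let N0 : Set (Set X) :=
    {V | ∃ x : X, IsOpen V ∧ x ∈ V ∧ ∀ W : Set X, IsOpen W → x ∈ W → V ⊆ W}
  let N1 : Set (Set X) :=
    {U | ∃ (x : X) (g : Set X), ¬ HasSmallest x ∧ g ∈ cc Γ ∧ x ∈ g ∧ g ⊆ O x ∧
      Maximal (· ∈ row (cc Γ) ℓ x g (rk x)) U}
  have hN0 : N0 ⊆ cc Γ := by
    rintro V ⟨x, hV, hxV, hmin⟩
    obtain ⟨G, hG, hxG, hsub⟩ := hΓ.exists_subset_of_mem_open hxV hV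
    have : G = V := subset_antisymm hsub (hmin G (hΓ.isOpen hG) hxG)
    rw [← this]
    exact subset_cc Γ hG
  have hN1 : N1 ⊆ cc Γ := by
    rintro U ⟨x, g, hx, hg, hxg, hgO, hU⟩
    exact (row_sub hg hxg _ U hU.prop).1
  refine ⟨N0 ∪ N1, union_subset hN0 hN1, ?_, ?_⟩
  · refine isTopologicalBasis_of_isOpen_of_nhds ?_ ?_
    · rintro u (hu | hu)
      · exact hopen u (hN0 hu)
      · exact hopen u (hN1 hu)
    · intro x W hxW hWo
      by_cases hx : HasSmallest x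
      · obtain ⟨V, hV, hxV, hmin⟩ := hx
        exact ⟨V, Or.inl ⟨x, hV, hxV, hmin⟩, hxV, hmin W hWo hxW⟩
      · obtain ⟨g, hg, hxg, hsub⟩ := hΓ.exists_subset_of_mem_open
          (show x ∈ W ∩ O x from ⟨hxW, hxO x⟩) (hWo.inter (hOo x))
        have hg' : g ∈ cc Γ := subset_cc Γ hg
        obtain ⟨U, hU⟩ := (row_finite (hPt x hx) g (rk x)).exists_maximal
          (row_nonempty (hPt x hx) hg' hxg (rk x))
        have h1 := row_sub hg' hxg _ U hU.prop
        exact ⟨U, Or.inr ⟨x, g, hx, hg', hxg, fun y hy => (hsub hy).2, hU⟩, h1.2.1,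
          h1.2.2.trans (fun y hy => (hsub hy).1)⟩
  · rintro ⟨G, hG, hGlt⟩
    have hmono : StrictMono G := strictMono_nat_of_lt_succ hGlt
    by_cases hcase : ∃ k, ∀ i ≥ k, G i ∈ N1
    · obtain ⟨k, hk⟩ := hcase
      have hk' : ∀ j, G (k + j) ∈ N1 := fun j => hk _ (by omega)
      choose x g hx hg hxg hgO hU using hk'
      have hxU : ∀ j, x j ∈ G (k + j) := fun j => (row_sub (hg j) (hxg j) _ _ (hU j).prop).2.1
      have hanti : ∀ i j, i ≤ j → rk (x j) ≤ rk (x i) := by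
        intro i j hij
        apply hOle (x j)
        apply hgO j
        apply (row_sub (hg j) (hxg j) _ _ (hU j).prop).2.2
        exact hmono.monotone (by omega : k + i ≤ k + j) (hxU i)
      obtain ⟨_, ⟨j0, rfl⟩, hmin⟩ := WellFounded.has_min (wellFounded_lt (α := ℕ))
        (range fun j => rk (x j)) ⟨_, 0, rfl⟩
      have hconst : ∀ j, rk (x (j0 + j)) = rk (x j0) := by
        intro j
        have h1 := hanti j0 (j0 + j) (by omega)
        have h2 := hmin _ ⟨j0 + j, rfl⟩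
        exact le_antisymm h1 (not_lt.mp h2)
      refine no_seq (ℓ := ℓ) (n := rk (x j0)) (fun j => x (j0 + j)) (fun j => g (j0 + j))
        (fun j => G (k + (j0 + j))) (fun j => ?_) (fun j => hg _) (fun j => hxg _) (fun j => ?_)
        (fun i j hij => hmono (by omega))
      · rw [← hconst j]; exact hPt _ (hx _)
      · rw [← hconst j]; exact hU (j0 + j)
    · push Not at hcase
      have h0 : ∀ N, ∃ n > N, G n ∈ N0 := by
        intro N
        obtain ⟨i, hi, hiN⟩ := hcase (N + 1)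
        exact ⟨i, by omega, (hG i).resolve_right hiN⟩
      obtain ⟨φ, hφ, hφN⟩ := Nat.exists_strictMono_subsequence h0
      choose x hxo hxG hmin using hφN
      apply hW
      refine ⟨x, fun i => ?_⟩
      have hsub : G (φ i) ⊂ G (φ (i + 1)) := hmono (hφ (Nat.lt_succ_self i))
      constructor
      · rw [← specializes_iff_closure_subset, specializes_iff_forall_open]
        intro W hWo hxW
        exact hmin (i + 1) W hWo hxW (hsub.1 (hxG i))
      · rw [← specializes_iff_closure_subset, specializes_iff_forall_open]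
        intro hcon
        exact hsub.2 (hmin (i + 1) (G (φ i)) (hxo i) (hcon _ (hxo i) (hxG i)))

theorem no_descending {X : Type u} [TopologicalSpace X] {𝒩 : Set (Set X)}
    (h𝒩 : IsTopologicalBasis 𝒩) (hN : NoethFamily 𝒩) (hS : SubinfiniteRank 𝒩) :
    ¬ ∃ z : ℕ → X, ∀ i, closure ({z (i + 1)} : Set X) ⊂ closure {z i} := by
  rintro ⟨z, hz⟩
  have hanti : StrictAnti (fun i => closure ({z i} : Set X)) := strictAnti_nat_of_succ_lt hz
  have hex : ∀ i, ∃ N ∈ 𝒩, z i ∈ N ∧ z (i + 1) ∉ N := by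
    intro i
    have h1 : z i ∉ closure ({z (i + 1)} : Set X) := by
      intro h
      have : closure ({z i} : Set X) ⊆ closure {z (i + 1)} :=
        closure_minimal (singleton_subset_iff.mpr h) isClosed_closure
      exact (hz i).2 this
    obtain ⟨N, hN, hzN, hsub⟩ := h𝒩.exists_subset_of_mem_open
      (show z i ∈ (closure ({z (i + 1)} : Set X))ᶜ from h1) isClosed_closure.isOpen_compl
    exact ⟨N, hN, hzN, fun h => hsub h (subset_closure rfl)⟩
  choose N hNmem hN1 hN2 using hex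
  -- a point of index at most `i` lies in `N i`
  have hin : ∀ i k, k ≤ i → z k ∈ N i := by
    intro i k hk
    have : z i ∈ closure ({z k} : Set X) := hanti.antitone hk (subset_closure rfl)
    have h := specializes_iff_mem_closure.mpr this
    exact (specializes_iff_forall_open.mp h) _ (h𝒩.isOpen (hNmem i)) (hN1 i)
  have hout : ∀ i k, i < k → z k ∉ N i := by
    intro i k hk hmem
    have : z k ∈ closure ({z (i + 1)} : Set X) := hanti.antitone (by omega : i + 1 ≤ k)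
      (subset_closure rfl)
    have h := specializes_iff_mem_closure.mpr this
    exact hN2 i ((specializes_iff_forall_open.mp h) _ (h𝒩.isOpen (hNmem i)) hmem)
  have hnot : ∀ i j, i < j → ¬ N j ⊆ N i := by
    intro i j hij hsub
    exact hout i j hij (hsub (hN1 j))
  obtain ⟨φ, hφ | hφ⟩ := exists_increasing_or_nonincreasing_subseq (· ⊂ ·) N
  · exact hN ⟨fun i => N (φ i), fun i => hNmem _, fun i => hφ i (i + 1) (Nat.lt_succ_self i)⟩
  · have hanti2 : ∀ i j, i ≠ j → ¬ N (φ i) ⊆ N (φ j) := by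
      intro i j hij hsub
      rcases lt_or_gt_of_ne hij with h | h
      · exact hφ i j h ⟨hsub, hnot _ _ (φ.strictMono h)⟩
      · exact hnot _ _ (φ.strictMono h) hsub
    have hinj : Function.Injective (fun i => N (φ i)) := by
      intro i j h
      by_contra hc
      exact hanti2 i j hc (le_of_eq h)
    have hfin := hS (range fun i => N (φ i)) (by rintro _ ⟨i, rfl⟩; exact hNmem _) (by
      rintro _ ⟨i, rfl⟩ _ ⟨j, rfl⟩ h
      exact hanti2 i j (fun h' => h (by rw [h']))) ⟨z 0, by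
      rintro _ ⟨i, rfl⟩
      exact hin _ 0 (Nat.zero_le _)⟩
    exact infinite_range_of_injective hinj hfin

theorem subinfinite_of_pointFinite {X : Type u} [TopologicalSpace X] {𝒩 : Set (Set X)}
    (h : PointFiniteRank 𝒩) : SubinfiniteRank 𝒩 := by
  rintro 𝒜 h1 h2 ⟨x, hx⟩
  obtain ⟨n, hn⟩ := h x
  exact finite_of_encard_le_coe (hn 𝒜 h1 h2 hx)

theorem rank_of_subset_cc {X : Type u} {Γ 𝒩 : Set (Set X)} (h : 𝒩 ⊆ cc Γ) {x : X} {n : ℕ}
    (hx : RankLE Γ x n) : RankLE 𝒩 x n :=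
  fun 𝒜 h1 h2 h3 => cc_rank hx 𝒜 (h1.trans h) h2 h3

/-- A `T₀` space with a base of rank `1` and no Noetherian base of subinfinite rank: the natural
numbers, the open sets being the initial segments. -/
theorem exists_example : ∃ (Y : Type) (_ : TopologicalSpace Y) (Γ : Set (Set Y)),
    T0Space Y ∧ IsTopologicalBasis Γ ∧ (∀ y, RankLE Γ y 1) ∧
      ¬ ∃ 𝒩 : Set (Set Y), IsTopologicalBasis 𝒩 ∧ NoethFamily 𝒩 ∧ SubinfiniteRank 𝒩 := by
  let Y := Topology.WithLowerSet ℕ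
  have hopen : ∀ s : Set Y, IsOpen s ↔ IsLowerSet s :=
    fun s => Topology.IsLowerSet.isOpen_iff_isLowerSet
  have hcl : ∀ a : Y, closure ({a} : Set Y) = Ici a := fun a => Topology.IsLowerSet.closure_singleton
  refine ⟨Y, inferInstance, range (fun n : Y => Iic n), ?_, ?_, ?_, ?_⟩
  · rw [t0Space_iff_not_inseparable]
    intro a b hab h
    rw [inseparable_iff_closure_eq, hcl, hcl] at h
    have h1 : b ∈ Ici a := by rw [h]; exact le_refl b
    have h2 : a ∈ Ici b := by rw [← h]; exact le_refl a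
    exact hab (le_antisymm (α := ℕ) h1 h2)
  · refine isTopologicalBasis_of_isOpen_of_nhds ?_ ?_
    · rintro _ ⟨n, rfl⟩
      rw [hopen]
      exact isLowerSet_Iic n
    · intro a u ha hu
      rw [hopen] at hu
      exact ⟨Iic a, ⟨a, rfl⟩, le_refl a, fun b hb => hu hb ha⟩
  · intro y 𝒜 h1 h2 _
    rw [Nat.cast_one, encard_le_one_iff_subsingleton]
    intro A hA B hB
    by_contra hne
    obtain ⟨a, rfl⟩ := h1 hA
    obtain ⟨b, rfl⟩ := h1 hB
    rcases le_total (α := ℕ) a b with h | h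
    · exact h2 hA hB hne (Iic_subset_Iic.mpr h)
    · exact h2 hB hA (Ne.symm hne) (Iic_subset_Iic.mpr h)
  · rintro ⟨𝒩, h1, h2, h3⟩
    apply no_descending h1 h2 h3
    refine ⟨fun n => Topology.WithLowerSet.toLowerSet n, fun i => ?_⟩
    change closure ({Topology.WithLowerSet.toLowerSet (i + 1)} : Set Y) ⊂
      closure {Topology.WithLowerSet.toLowerSet i}
    rw [hcl, hcl]
    constructor
    · intro b hb
      exact le_trans (α := ℕ) (Nat.le_succ i) hb
    · intro hcon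
      have : (i + 1 : ℕ) ≤ i := hcon (le_refl (α := ℕ) i)
      omega

end Main

/-! ### Noetherian families of subinfinite rank are well quasi-ordered by `⊇` at every point -/

/-- The members of `𝒩` which contain `x`. -/
def At {X : Type u} (𝒩 : Set (Set X)) (x : X) : Type u := {G : Set X // G ∈ 𝒩 ∧ x ∈ G}

/-- Reverse inclusion. -/
def Rev {X : Type u} (𝒩 : Set (Set X)) (x : X) (A B : At 𝒩 x) : Prop := B.1 ⊆ A.1

instance {X : Type u} (𝒩 : Set (Set X)) (x : X) : IsPreorder (At 𝒩 x) (Rev 𝒩 x) where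
  refl _ := subset_rfl
  trans _ _ _ h1 h2 := fun _ hy => h1 (h2 hy)

theorem wqo_at {X : Type u} {𝒩 : Set (Set X)} (hN : NoethFamily 𝒩) (hS : SubinfiniteRank 𝒩)
    (x : X) : WellQuasiOrdered (Rev 𝒩 x) := by
  intro f
  by_contra hcon
  push Not at hcon
  have hnot : ∀ i j, i < j → ¬ (f j).1 ⊆ (f i).1 := fun i j h => hcon i j h
  obtain ⟨φ, hφ | hφ⟩ := exists_increasing_or_nonincreasing_subseq (· ⊂ ·) (fun i => (f i).1)
  · exact hN ⟨fun i => (f (φ i)).1, fun i => (f (φ i)).2.1,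
      fun i => hφ i (i + 1) (Nat.lt_succ_self i)⟩
  · have hanti2 : ∀ i j, i ≠ j → ¬ (f (φ i)).1 ⊆ (f (φ j)).1 := by
      intro i j hij hsub
      rcases lt_or_gt_of_ne hij with h | h
      · exact hφ i j h ⟨hsub, hnot _ _ (φ.strictMono h)⟩
      · exact hnot _ _ (φ.strictMono h) hsub
    have hinj : Function.Injective (fun i => (f (φ i)).1) := by
      intro i j h
      by_contra hc
      exact hanti2 i j hc (le_of_eq h)
    have hfin := hS (range fun i => (f (φ i)).1) (by rintro _ ⟨i, rfl⟩; exact (f (φ i)).2.1) (by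
      rintro _ ⟨i, rfl⟩ _ ⟨j, rfl⟩ h
      exact hanti2 i j (fun h' => h (by rw [h']))) ⟨x, by
      rintro _ ⟨i, rfl⟩
      exact (f (φ i)).2.2⟩
    exact infinite_range_of_injective hinj hfin

theorem of_wqo {X : Type u} {𝒩 : Set (Set X)} (h : ∀ x, WellQuasiOrdered (Rev 𝒩 x)) :
    NoethFamily 𝒩 ∧ SubinfiniteRank 𝒩 := by
  constructor
  · rintro ⟨G, hG, hlt⟩
    have hmono : StrictMono G := strictMono_nat_of_lt_succ hlt
    obtain ⟨x, hx, -⟩ := exists_of_ssubset (hlt 0)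
    obtain ⟨m, n, hmn, hr⟩ := h x (fun i => ⟨G (i + 1), hG _, hmono.monotone (by omega : 0 + 1 ≤ i + 1) hx⟩)
    exact (hmono (by omega : m + 1 < n + 1)).2 hr
  · rintro 𝒜 h1 h2 ⟨x, hx⟩
    by_contra hinf
    have hinf' : 𝒜.Infinite := hinf
    obtain ⟨m, n, hmn, hr⟩ := h x (fun i => ⟨(hinf'.natEmbedding _ i).1,
      h1 (hinf'.natEmbedding _ i).2, hx _ (hinf'.natEmbedding _ i).2⟩)
    have hr' : ((hinf'.natEmbedding _ n) : Set X) ⊆ (hinf'.natEmbedding _ m) := hr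
    have h3 := h2.eq (hinf'.natEmbedding _ n).2 (hinf'.natEmbedding _ m).2 hr'
    exact hmn.ne' ((hinf'.natEmbedding _).injective (Subtype.ext h3))

/-! ### Metacompactness -/

theorem exists_maximal_of_noeth {X : Type u} {𝒩 : Set (Set X)} (hN : NoethFamily 𝒩)
    {P : Set (Set X)} (hP : P ⊆ 𝒩) {B : Set X} (hB : B ∈ P) : ∃ M, B ⊆ M ∧ Maximal (· ∈ P) M := by
  have hwf : WellFounded (fun a b : {G : Set X // G ∈ P} => b.1 ⊂ a.1) := by
    rw [wellFounded_iff_isEmpty_descending_chain]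
    exact ⟨fun ⟨f, hf⟩ => hN ⟨fun i => (f i).1, fun i => hP (f i).2, fun i => hf i⟩⟩
  obtain ⟨M, hM, hmin⟩ := hwf.has_min {G | B ⊆ G.1} ⟨⟨B, hB⟩, (subset_rfl : B ⊆ B)⟩
  refine ⟨M.1, hM, M.2, fun G hG hsub => ?_⟩
  by_contra hne
  exact hmin ⟨G, hG⟩ (hM.trans hsub) ⟨hsub, hne⟩

theorem hereditarilyMetacompact_of_noeth {X : Type u} [TopologicalSpace X] {𝒩 : Set (Set X)}
    (h𝒩 : IsTopologicalBasis 𝒩) (hN : NoethFamily 𝒩) (hS : SubinfiniteRank 𝒩) :
    HereditarilyMetacompact X := by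
  intro A 𝒰 hU hcov
  set P : Set (Set X) := {B | B ∈ 𝒩 ∧ ∃ U ∈ 𝒰, (Subtype.val ⁻¹' B : Set A) ⊆ U} with hP
  refine ⟨{V | ∃ M, Maximal (· ∈ P) M ∧ V = Subtype.val ⁻¹' M}, ?_, ?_, ?_, ?_⟩
  · rintro V ⟨M, hM, rfl⟩
    exact (h𝒩.isOpen hM.prop.1).preimage continuous_subtype_val
  · rw [eq_univ_iff_forall]
    intro a
    have ha : a ∈ ⋃₀ 𝒰 := by rw [hcov]; exact mem_univ a
    obtain ⟨U, hUU, haU⟩ := ha
    obtain ⟨W, hW, hWU⟩ := isOpen_induced_iff.1 (hU U hUU)
    have haW : a.1 ∈ W := by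
      have : a ∈ Subtype.val ⁻¹' W := by rw [hWU]; exact haU
      exact this
    obtain ⟨B, hB, haB, hBW⟩ := h𝒩.exists_subset_of_mem_open haW hW
    have hBP : B ∈ P := ⟨hB, U, hUU, by
      rw [← hWU]
      exact preimage_mono hBW⟩
    obtain ⟨M, hBM, hM⟩ := exists_maximal_of_noeth hN (fun _ h => h.1) hBP
    exact ⟨_, ⟨M, hM, rfl⟩, hBM haB⟩
  · rintro V ⟨M, hM, rfl⟩
    exact hM.prop.2
  · intro a
    have hfin : {M | Maximal (· ∈ P) M ∧ a.1 ∈ M}.Finite := by
      refine hS _ (fun M hM => hM.1.prop.1) ?_ ⟨a.1, fun M hM => hM.2⟩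
      intro M hM M' hM' hne hsub
      exact hne (subset_antisymm hsub (hM.1.le_of_ge hM'.1.prop hsub))
    refine (hfin.image (fun M => (Subtype.val ⁻¹' M : Set A))).subset ?_
    rintro V ⟨⟨M, hM, rfl⟩, haV⟩
    exact ⟨M, ⟨hM, haV⟩, rfl⟩

theorem no_descending_of_hm {X : Type u} [TopologicalSpace X] (h : HereditarilyMetacompact X) :
    ¬ ∃ z : ℕ → X, ∀ i, closure ({z (i + 1)} : Set X) ⊂ closure {z i} := by
  rintro ⟨z, hz⟩
  have hanti : StrictAnti (fun i => closure ({z i} : Set X)) := strictAnti_nat_of_succ_lt hz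
  have hin : ∀ i k, k ≤ i → z i ∈ closure ({z k} : Set X) :=
    fun i k hk => hanti.antitone hk (subset_closure rfl)
  have hout : ∀ i k, k < i → z k ∉ closure ({z i} : Set X) := by
    intro i k hk hmem
    have h1 : closure ({z k} : Set X) ⊆ closure {z i} :=
      closure_minimal (singleton_subset_iff.mpr hmem) isClosed_closure
    exact (hanti hk).2 h1
  have hspec : ∀ (i k : ℕ), k ≤ i → ∀ O : Set X, IsOpen O → z i ∈ O → z k ∈ O := by
    intro i k hk O hO hi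
    exact (specializes_iff_forall_open.mp (specializes_iff_mem_closure.mpr (hin i k hk))) O hO hi
  set A : Set X := range z with hA
  have hzA : ∀ i, z i ∈ A := fun i => ⟨i, rfl⟩
  let W : ℕ → Set A := fun i => Subtype.val ⁻¹' (closure ({z (i + 1)} : Set X))ᶜ
  have hWmem : ∀ i k, (⟨z k, hzA k⟩ : A) ∈ W i ↔ k ≤ i := by
    intro i k
    constructor
    · intro hk
      by_contra hcon
      exact hk (hin k (i + 1) (by omega))
    · intro hk
      exact hout (i + 1) k (by omega)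
  obtain ⟨𝒱, hVo, hVc, hVr, hVf⟩ := h A (range W) (by
      rintro _ ⟨i, rfl⟩
      exact isClosed_closure.isOpen_compl.preimage continuous_subtype_val) (by
      rw [eq_univ_iff_forall]
      rintro ⟨_, k, rfl⟩
      exact ⟨W k, ⟨k, rfl⟩, (hWmem k k).2 le_rfl⟩)
  have h0 : ∀ V ∈ 𝒱, ∀ k, (⟨z k, hzA k⟩ : A) ∈ V → (⟨z 0, hzA 0⟩ : A) ∈ V := by
    intro V hV k hk
    obtain ⟨O, hO, rfl⟩ := isOpen_induced_iff.1 (hVo V hV)
    exact hspec k 0 (Nat.zero_le _) O hO hk
  have hfin := hVf ⟨z 0, hzA 0⟩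
  choose! g hg using fun V hV => hVr V hV
  choose! idx hidx using fun V hV => (hg V hV).1
  obtain ⟨I, hI⟩ := (hfin.image idx).bddAbove
  have hc : (⟨z (I + 1), hzA (I + 1)⟩ : A) ∈ ⋃₀ 𝒱 := by rw [hVc]; exact mem_univ _
  obtain ⟨V, hV, hVz⟩ := hc
  have h1 : idx V ≤ I := hI ⟨V, ⟨hV, h0 V hV _ hVz⟩, rfl⟩
  have h2 := (hg V hV).2 hVz
  rw [← hidx V hV] at h2
  have h3 := (hWmem _ _).1 h2
  omega

/-! ### Finite products -/

theorem product_base {ι : Type} [Finite ι] {X : ι → Type u} [∀ i, TopologicalSpace (X i)]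
    (h : ∀ i, ∃ 𝒩 : Set (Set (X i)), IsTopologicalBasis 𝒩 ∧ NoethFamily 𝒩 ∧ SubinfiniteRank 𝒩) :
    ∃ 𝒩 : Set (Set (∀ i, X i)), IsTopologicalBasis 𝒩 ∧ NoethFamily 𝒩 ∧ SubinfiniteRank 𝒩 := by
  choose N hNb hNn hNs using h
  set 𝒩 : Set (Set (∀ i, X i)) := {S | ∃ B : ∀ i, Set (X i), (∀ i, B i ∈ N i) ∧ S = univ.pi B}
    with h𝒩
  refine ⟨𝒩, ?_, of_wqo ?_⟩
  · refine isTopologicalBasis_of_isOpen_of_nhds ?_ ?_
    · rintro _ ⟨B, hB, rfl⟩
      exact isOpen_set_pi finite_univ fun i _ => (hNb i).isOpen (hB i)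
    · intro x U hx hU
      obtain ⟨u, hu, hsub⟩ := isOpen_pi_iff'.1 hU x hx
      choose B hB hxB hBu using fun i => (hNb i).exists_subset_of_mem_open (hu i).2 (hu i).1
      exact ⟨univ.pi B, ⟨B, hB, rfl⟩, fun i _ => hxB i, (pi_mono fun i _ => hBu i).trans hsub⟩
  · intro x f
    choose B hB hfB using fun n => (f n).2.1
    have hxB : ∀ n i, x i ∈ B n i := by
      intro n i
      have h1 : x ∈ univ.pi (B n) := by
        rw [← hfB n]
        exact (f n).2.2
      exact h1 i (mem_univ i)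
    obtain ⟨m, n, hmn, hr⟩ := WellQuasiOrdered.pi (fun i => wqo_at (hNn i) (hNs i) (x i))
      (fun n i => (⟨B n i, hB n i, hxB n i⟩ : At (N i) (x i)))
    refine ⟨m, n, hmn, ?_⟩
    change (f n).1 ⊆ (f m).1
    rw [hfB n, hfB m]
    exact pi_mono fun i _ => hr i

theorem prod_base {X Y : Type u} [TopologicalSpace X] [TopologicalSpace Y]
    (h : ∃ 𝒩 : Set (Set X), IsTopologicalBasis 𝒩 ∧ NoethFamily 𝒩 ∧ SubinfiniteRank 𝒩)
    (h' : ∃ 𝒩 : Set (Set Y), IsTopologicalBasis 𝒩 ∧ NoethFamily 𝒩 ∧ SubinfiniteRank 𝒩) :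
    ∃ 𝒩 : Set (Set (X × Y)), IsTopologicalBasis 𝒩 ∧ NoethFamily 𝒩 ∧ SubinfiniteRank 𝒩 := by
  obtain ⟨N, hNb, hNn, hNs⟩ := h
  obtain ⟨M, hMb, hMn, hMs⟩ := h'
  refine ⟨image2 (· ×ˢ ·) N M, hNb.prod hMb, of_wqo ?_⟩
  intro x f
  choose A hA B hB hfB' using fun n => (f n).2.1
  have hfB : ∀ n, A n ×ˢ B n = (f n).1 := hfB'
  have hx : ∀ n, x.1 ∈ A n ∧ x.2 ∈ B n := by
    intro n
    have h1 : x ∈ A n ×ˢ B n := by
      rw [hfB n]
      exact (f n).2.2
    exact h1
  obtain ⟨m, n, hmn, hr⟩ := (wqo_at hNn hNs x.1).prod (wqo_at hMn hMs x.2)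
    (fun n => ((⟨A n, hA n, (hx n).1⟩ : At N x.1), (⟨B n, hB n, (hx n).2⟩ : At M x.2)))
  refine ⟨m, n, hmn, ?_⟩
  change (f n).1 ⊆ (f m).1
  rw [← hfB n, ← hfB m]
  exact prod_mono hr.1 hr.2

/-! ### Two spaces with bases of rank `1` whose product has no base of point-finite rank -/

section Tail

variable (J : Type) [LinearOrder J] [Nonempty J]

/-- The points `some j` are isolated, the neighbourhoods of `none` are the sets which contain a
final segment. For `J = ℕ` this is the convergent sequence, for `J = ω₁` the one-point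
Lindelöfication of a discrete space. -/
@[reducible] def tailTop : TopologicalSpace (Option J) where
  IsOpen U := none ∈ U → ∃ b : J, ∀ j, b ≤ j → some j ∈ U
  isOpen_univ := fun _ => ⟨Classical.arbitrary J, fun _ _ => mem_univ _⟩
  isOpen_inter := by
    intro U V hU hV h
    obtain ⟨b, hb⟩ := hU h.1
    obtain ⟨c, hc⟩ := hV h.2
    exact ⟨max b c, fun j hj => ⟨hb j ((le_max_left _ _).trans hj), hc j ((le_max_right _ _).trans hj)⟩⟩
  isOpen_sUnion := by
    rintro 𝒰 hU ⟨U, hUU, h⟩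
    obtain ⟨b, hb⟩ := hU U hUU h
    exact ⟨b, fun j hj => ⟨U, hUU, hb j hj⟩⟩

/-- The final segment of `b`, with the point at infinity. -/
def seg {J : Type} [LinearOrder J] (b : J) : Set (Option J) := {y | ∀ j, y = some j → b ≤ j}

theorem none_mem_seg {J : Type} [LinearOrder J] (b : J) : (none : Option J) ∈ seg b :=
  fun _ h => by cases h

theorem some_mem_seg {J : Type} [LinearOrder J] (b j : J) : (some j : Option J) ∈ seg b ↔ b ≤ j :=
  ⟨fun h => h j rfl, fun h k hk => by rw [← Option.some.inj hk]; exact h⟩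

theorem seg_subset {J : Type} [LinearOrder J] {b c : J} (h : b ≤ c) : seg c ⊆ seg b :=
  fun _ hy j hj => h.trans (hy j hj)

theorem isOpen_tail (U : Set (Option J)) :
    IsOpen[tailTop J] U ↔ (none ∈ U → ∃ b : J, ∀ j, b ≤ j → some j ∈ U) := Iff.rfl

theorem isOpen_seg (b : J) : IsOpen[tailTop J] (seg b) := by
  rw [isOpen_tail]
  exact fun _ => ⟨b, fun j hj => (some_mem_seg b j).2 hj⟩

theorem isOpen_some (j : J) : IsOpen[tailTop J] ({some j} : Set (Option J)) := by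
  rw [isOpen_tail]
  intro h
  cases h

/-- The standard base. -/
def tailBase : Set (Set (Option J)) := range (seg (J := J)) ∪ range (fun j : J => {some j})

theorem tail_basis : @IsTopologicalBasis _ (tailTop J) (tailBase J) := by
  let _ := tailTop J
  refine isTopologicalBasis_of_isOpen_of_nhds ?_ ?_
  · rintro u (⟨b, rfl⟩ | ⟨j, rfl⟩)
    · exact isOpen_seg J b
    · exact isOpen_some J j
  · rintro (_ | j) U hx hU
    · obtain ⟨b, hb⟩ := (isOpen_tail J U).1 hU hx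
      refine ⟨seg b, Or.inl ⟨b, rfl⟩, none_mem_seg b, ?_⟩
      rintro (_ | j) hj
      · exact hx
      · exact hb j ((some_mem_seg b j).1 hj)
    · exact ⟨{some j}, Or.inr ⟨j, rfl⟩, rfl, by rintro _ rfl; exact hx⟩

omit [Nonempty J] in
theorem tail_rank (x : Option J) : RankLE (tailBase J) x 1 := by
  intro 𝒜 h1 h2 hx
  rw [Nat.cast_one, encard_le_one_iff_subsingleton]
  intro A hA B hB
  by_contra hne
  have hAx := hx A hA
  have hBx := hx B hB
  rcases h1 hA with ⟨a, rfl⟩ | ⟨j, rfl⟩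
  · rcases h1 hB with ⟨b, rfl⟩ | ⟨k, rfl⟩
    · rcases le_total a b with h | h
      · exact h2 hB hA (Ne.symm hne) (seg_subset h)
      · exact h2 hA hB hne (seg_subset h)
    · have hxk : x = some k := hBx
      refine h2 hB hA (Ne.symm hne) ?_
      rintro _ rfl
      rw [← hxk]
      exact hAx
  · have hxj : x = some j := hAx
    refine h2 hA hB hne ?_
    rintro _ rfl
    rw [← hxj]
    exact hBx

theorem tail_t2 [NoMaxOrder J] : @T2Space _ (tailTop J) := by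
  let _ := tailTop J
  have key : ∀ j : J, ∃ u v : Set (Option J), IsOpen u ∧ IsOpen v ∧ none ∈ u ∧ some j ∈ v ∧ Disjoint u v := by
    intro j
    obtain ⟨b, hb⟩ := exists_gt j
    refine ⟨seg b, {some j}, isOpen_seg J b, isOpen_some J j, none_mem_seg b, rfl, ?_⟩
    rw [disjoint_singleton_right]
    intro h
    exact absurd ((some_mem_seg b j).1 h) (not_le.2 hb)
  refine ⟨fun x y hxy => ?_⟩
  rcases x with _ | i <;> rcases y with _ | j
  · exact absurd rfl hxy
  · exact key j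
  · obtain ⟨u, v, h1, h2, h3, h4, h5⟩ := key i
    exact ⟨v, u, h2, h1, h4, h3, h5.symm⟩
  · refine ⟨{some i}, {some j}, isOpen_some J i, isOpen_some J j, rfl, rfl, ?_⟩
    rw [disjoint_singleton]
    exact hxy

theorem isClosed_seg (b : J) : @IsClosed _ (tailTop J) (seg b) := by
  let _ := tailTop J
  rw [← isOpen_compl_iff]
  refine (isOpen_tail J _).2 fun h => absurd (none_mem_seg b) h

theorem isClosed_some [NoMaxOrder J] (j : J) : @IsClosed _ (tailTop J) ({some j} : Set (Option J)) := by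
  let _ := tailTop J
  rw [← isOpen_compl_iff]
  refine (isOpen_tail J _).2 fun _ => ?_
  obtain ⟨b, hb⟩ := exists_gt j
  refine ⟨b, fun k hk h => ?_⟩
  have h' : some k = some j := h
  rw [Option.some.inj h'] at hk
  exact absurd hk (not_le.2 hb)

theorem tail_clopen [NoMaxOrder J] (U : Set (Option J)) (hU : U ∈ tailBase J) : @IsClopen _ (tailTop J) U := by
  rcases hU with ⟨b, rfl⟩ | ⟨j, rfl⟩
  · exact ⟨isClosed_seg J b, isOpen_seg J b⟩
  · exact ⟨isClosed_some J j, isOpen_some J j⟩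


/-- In the product of the spaces of `ℕ` and `J` there are antichains of any size at the corner. -/
theorem big_antichain [NoMaxOrder J] (hJ : ∀ f : ℕ → J, ∃ b, ∀ n, f n ≤ b)
    (Γ : Set (Set (Option ℕ × Option J)))
    (hΓ : @IsTopologicalBasis _ (@instTopologicalSpaceProd _ _ (tailTop ℕ) (tailTop J)) Γ) (r : ℕ) :
    ∀ b : J, ∃ 𝒜 : Set (Set (Option ℕ × Option J)), 𝒜 ⊆ Γ ∧ IsAntichain (· ⊆ ·) 𝒜 ∧
      (∀ A ∈ 𝒜, ((none, none) : Option ℕ × Option J) ∈ A ∧ A ⊆ univ ×ˢ seg b) ∧ 𝒜.encard = r := by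
  let _ := tailTop ℕ
  let _ := tailTop J
  -- an open set around the corner contains a box
  have hbox : ∀ U : Set (Option ℕ × Option J), IsOpen U → ((none, none) : Option ℕ × Option J) ∈ U →
      ∃ (m : ℕ) (c : J), (∀ j, c ≤ j → ((none, some j) : Option ℕ × Option J) ∈ U) ∧
        ((some m, none) : Option ℕ × Option J) ∈ U := by
    intro U hU hp
    obtain ⟨u, v, hu, hv, h1, h2, huv⟩ := isOpen_prod_iff.1 hU none none hp
    obtain ⟨m, hm⟩ := (isOpen_tail ℕ u).1 hu h1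
    obtain ⟨c, hc⟩ := (isOpen_tail J v).1 hv h2
    exact ⟨m, c, fun j hj => huv ⟨h1, hc j hj⟩, huv ⟨hm m le_rfl, h2⟩⟩
  induction r with
  | zero =>
    intro b
    exact ⟨∅, empty_subset _, by simp [IsAntichain], by simp, by simp⟩
  | succ r ih =>
    intro b
    -- a sequence of small members of the base
    have hE : ∀ k : ℕ, ∃ E ∈ Γ, ((none, none) : Option ℕ × Option J) ∈ E ∧ E ⊆ seg k ×ˢ seg b := by
      intro k
      exact hΓ.exists_subset_of_mem_open (a := ((none, none) : Option ℕ × Option J))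
        ⟨none_mem_seg k, none_mem_seg b⟩ ((isOpen_seg ℕ k).prod (isOpen_seg J b))
    choose E hEΓ hEp hEs using hE
    choose m c hc hm using fun k => hbox (E k) (hΓ.isOpen (hEΓ k)) (hEp k)
    obtain ⟨β, hβ⟩ := hJ c
    have hβE : ∀ k, ((none, some β) : Option ℕ × Option J) ∈ E k := fun k => hc k β (hβ k)
    have hbβ : b ≤ β := (some_mem_seg b β).1 (hEs 0 (hβE 0)).2
    obtain ⟨b', hb'⟩ := exists_gt β
    obtain ⟨𝒜, hA1, hA2, hA3, hA4⟩ := ih b'
    have hfin : 𝒜.Finite := finite_of_encard_eq_coe hA4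
    -- all members of `𝒜` contain a point `(some m, none)`
    have hm' : ∀ A ∈ 𝒜, ∃ k : ℕ, ((some k, none) : Option ℕ × Option J) ∈ A := by
      intro A hA
      obtain ⟨k, _, -, hk⟩ := hbox A (hΓ.isOpen (hA1 hA)) (hA3 A hA).1
      exact ⟨k, hk⟩
    choose! κ hκ using hm'
    obtain ⟨K, hK⟩ := (hfin.image κ).bddAbove
    have hK' : ∀ A ∈ 𝒜, κ A ≤ K := fun A hA => hK ⟨A, hA, rfl⟩
    have h1 : ∀ A ∈ 𝒜, ¬ E (K + 1) ⊆ A := by
      intro A hA hsub
      have := (hA3 A hA).2 (hsub (hβE (K + 1)))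
      exact absurd ((some_mem_seg b' β).1 this.2) (not_le.2 hb')
    have h2 : ∀ A ∈ 𝒜, ¬ A ⊆ E (K + 1) := by
      intro A hA hsub
      have := hEs (K + 1) (hsub (hκ A hA))
      have h3 := (some_mem_seg (K + 1) (κ A)).1 this.1
      have h4 := hK' A hA
      omega
    refine ⟨insert (E (K + 1)) 𝒜, ?_, ?_, ?_, ?_⟩
    · rintro A (rfl | hA)
      · exact hEΓ _
      · exact hA1 hA
    · rintro A (rfl | hA) B (rfl | hB) hne
      · exact absurd rfl hne
      · exact h1 B hB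
      · exact h2 A hA
      · exact hA2 hA hB hne
    · rintro A (rfl | hA)
      · exact ⟨hEp _, fun y hy => ⟨mem_univ _, (hEs _ hy).2⟩⟩
      · exact ⟨(hA3 A hA).1, fun y hy => ⟨mem_univ _,
          seg_subset (hbβ.trans hb'.le) ((hA3 A hA).2 hy).2⟩⟩
    · rw [encard_insert_of_notMem (fun h => h1 _ h subset_rfl), hA4]
      push_cast
      rfl

theorem no_base [NoMaxOrder J] (hJ : ∀ f : ℕ → J, ∃ b, ∀ n, f n ≤ b)
    (Γ : Set (Set (Option ℕ × Option J)))
    (hΓ : @IsTopologicalBasis _ (@instTopologicalSpaceProd _ _ (tailTop ℕ) (tailTop J)) Γ) :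
    ¬ PointFiniteRank Γ := by
  intro h
  obtain ⟨n, hn⟩ := h (none, none)
  obtain ⟨𝒜, h1, h2, h3, h4⟩ := big_antichain J hJ Γ hΓ (n + 1) (Classical.arbitrary J)
  have h5 := hn 𝒜 h1 h2 (fun A hA => (h3 A hA).1)
  rw [h4] at h5
  have : n + 1 ≤ n := by exact_mod_cast h5
  omega

end Tail

/-- The first uncountable ordinal. -/
theorem exists_omega_one : ∃ (J : Type) (_ : LinearOrder J) (_ : Nonempty J) (_ : NoMaxOrder J),
    ∀ f : ℕ → J, ∃ b, ∀ n, f n ≤ b := by
  let e : Iio (Ordinal.omega 1 : Ordinal.{0}) ≃o (Ordinal.omega 1 : Ordinal.{0}).ToType := Ordinal.ToType.mk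
  have hpos : (0 : Ordinal.{0}) < (Ordinal.omega 1) := Ordinal.omega_pos 1
  have hlim : Order.IsSuccLimit ((Ordinal.omega 1) : Ordinal.{0}) := Cardinal.isSuccLimit_omega 1
  refine ⟨((Ordinal.omega 1) : Ordinal.{0}).ToType, inferInstance, ⟨e ⟨0, hpos⟩⟩, ⟨fun a => ?_⟩, fun f => ?_⟩
  · have h1 : (e.symm a).1 < (Ordinal.omega 1) := (e.symm a).2
    have h2 : Order.succ (e.symm a).1 < (Ordinal.omega 1) := hlim.succ_lt h1
    refine ⟨e ⟨Order.succ (e.symm a).1, h2⟩, ?_⟩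
    have h3 : e.symm a < ⟨Order.succ (e.symm a).1, h2⟩ := Order.lt_succ (e.symm a).1
    have h4 := e.strictMono h3
    rwa [e.apply_symm_apply] at h4
  · have h := Ordinal.iSup_lt_omega_one (f := fun n => (e.symm (f n)).1) (fun n => (e.symm (f n)).2)
    refine ⟨e ⟨_, h⟩, fun n => ?_⟩
    rw [← e.symm_apply_le]
    exact Ordinal.le_iSup (fun n => (e.symm (f n)).1) n

/-- The product of the convergent sequence and the one-point Lindelöfication of `ω₁`. -/
theorem exists_pair_spaces : ∃ (P Q : Type) (_ : TopologicalSpace P) (_ : TopologicalSpace Q),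
    T2Space P ∧ T2Space Q ∧
    (∃ Γ : Set (Set P), IsTopologicalBasis Γ ∧ (∀ G ∈ Γ, IsClopen G) ∧ ∀ x, RankLE Γ x 1) ∧
    (∃ Γ : Set (Set Q), IsTopologicalBasis Γ ∧ (∀ G ∈ Γ, IsClopen G) ∧ ∀ x, RankLE Γ x 1) ∧
    ¬ ∃ Γ : Set (Set (P × Q)), IsTopologicalBasis Γ ∧ PointFiniteRank Γ := by
  obtain ⟨J, h1, h2, h3, h4⟩ := exists_omega_one
  refine ⟨Option ℕ, Option J, tailTop ℕ, tailTop J, tail_t2 ℕ, tail_t2 J,
    ⟨tailBase ℕ, tail_basis ℕ, tail_clopen ℕ, tail_rank ℕ⟩,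
    ⟨tailBase J, tail_basis J, tail_clopen J, tail_rank J⟩, ?_⟩
  rintro ⟨Γ, hΓ, hr⟩
  exact no_base J h4 Γ hΓ hr

/-- A space with a base of point-finite rank that is `T₁`, or hereditarily metacompact, has a Noetherian
base of subinfinite rank. -/
theorem exists_noeth {X : Type u} [TopologicalSpace X] {Γ : Set (Set X)} (hΓ : IsTopologicalBasis Γ)
    (hr : PointFiniteRank Γ) (hT : T1Space X ∨ HereditarilyMetacompact X) :
    ∃ 𝒩 : Set (Set X), IsTopologicalBasis 𝒩 ∧ NoethFamily 𝒩 ∧ SubinfiniteRank 𝒩 ∧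
      PointFiniteRank 𝒩 ∧ ∀ (x : X) (n : ℕ), RankLE Γ x n → RankLE 𝒩 x n := by
  have hW : ¬ ∃ z : ℕ → X, ∀ i, closure ({z (i + 1)} : Set X) ⊂ closure {z i} := by
    rcases hT with hT | hT
    · rintro ⟨z, hz⟩
      have h := hz 0
      rw [closure_singleton, closure_singleton] at h
      have h1 : z (0 + 1) = z 0 := h.1 rfl
      rw [h1] at h
      exact h.2 subset_rfl
    · exact no_descending_of_hm hT
  obtain ⟨𝒩, h1, h2, h3⟩ := exists_noeth_base hΓ hr hW
  have hpf : PointFiniteRank 𝒩 := fun x => (hr x).imp fun n hn => rank_of_subset_cc h1 hn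
  exact ⟨𝒩, h2, h3, subinfinite_of_pointFinite hpf, hpf, fun x n hn => rank_of_subset_cc h1 hn⟩

end Pool.Agent.H16.NB
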